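import Pool.Agent.H.MP_ad013a_pr.h63.Flat
import Pool.Agent.H.MP_ad013a_pr.h63s.Q16.D0

namespace Pool.Agent.ad013a.AM16

/-- choice of a leaf -/
noncomputable def leaf (_ : Nat) : Nat := L0

/-- entry number `i` -/
noncomputable def g (i : Nat) : Nat := ent (leaf i) (Nat.land i 127)

/-- the check of one entry -/
noncomputable def chk (e : Nat) : Bool := chkF false 10000 131072 51669 6761 7091 g e

end Pool.Agent.ad013a.AM16
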